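import Pool.Agent.Helper49.TD.Bramble
import Pool.Agent.Helper49.TD.Forest
import Pool.Agent.Helper49.TD.Lower

/-!
# MP_04d34b_co: treedepth of `P_t`-free graphs of bounded treewidth

Let `h(k, t)` be the largest treedepth of a finite graph of treewidth at most `k` without an induced
path on `t` vertices, and `e = ⌊(t - 1) / 2⌋`. We prove
`C(k + e, e) ≤ h(k, t) ≤ 2 (k + 2) ^ e` for all `t ≥ 2` and `k`, so `h(k, t) = Θ(k ^ e)` for fixed `t`.

Upper bound. Let `𝓑` be a family of connected sets of vertices. A `𝓑`-bramble is a family of pairwise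
touching connected sets each of which contains a member of `𝓑`; it has a hitting set with at most `k + 1`
elements. The cost is the number of rounds in which all members of `𝓑` can be hit, when one vertex of
every component is deleted in every round; for the family of all single vertices this is the treedepth.
Let `𝓑` be `s`-close: two members of `𝓑` in a connected set `W` are joined by a walk in `W` with at
most `s` inner vertices. If `s ≥ 2` and `j` is the largest order of a `𝓑`-bramble, then the heavy sets
(connected sets that contain a `𝓑`-bramble of order `j` and more than `j` vertices are needed to hit the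
members of `𝓑` in them) are `(s - 2)`-close: if a shortest path `v₁ … v_m` joins two heavy sets, then `v₁`
is not adjacent to some member of `𝓑` in the first one, otherwise `v₁` could be used to enlarge a bramble.
After the heavy sets are hit, the order has decreased. For `s = 1` one deletes smallest separators, and
their cost is paid by the decrease of the order; for `s = 0` the family itself is a bramble. In a graph
without an induced path on `t` vertices the single vertices are `(t - 3)`-close.

Lower bound. Coronas: `h(k, t) ≥ h(k, t - 2) + h(k - 1, t)` for `t ≥ 5`.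
-/

set_option autoImplicit false

namespace Pool.Agent.Results.MP_04d34b_co.InducedPathTreedepth

open Filter Asymptotics SimpleGraph Pool.Agent.Helper49.TD

theorem upper {V : Type} [Finite V] (G : SimpleGraph V) (k t : ℕ) (ht : 2 ≤ t)
    (htw : treewidth G ≤ k) (hP : ¬ Nonempty (pathGraph t ↪g G)) :
    treedepth G ≤ 2 * (k + 2) ^ ((t - 1) / 2) := by
  classical
  have := Fintype.ofFinite V
  obtain ⟨s, rfl⟩ := Nat.exists_eq_add_of_le ht
  rcases s with _ | s
  · -- no edges
    have hno : ∀ u v, ¬ G.Adj u v := by
      intro u v huv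
      apply hP
      refine ⟨⟨⟨fun i => if i.val = 0 then u else v, ?_⟩, ?_⟩⟩
      · intro i j hij
        have hne := huv.ne
        have hi := i.2
        have hj := j.2
        apply Fin.ext
        by_contra hc
        rcases Nat.lt_or_gt_of_ne hc with h | h
        · simp only [show (i : ℕ) = 0 by omega, show (j : ℕ) = 1 by omega, if_true,
            one_ne_zero, if_false] at hij
          exact hne hij
        · simp only [show (i : ℕ) = 1 by omega, show (j : ℕ) = 0 by omega, if_true,
            one_ne_zero, if_false] at hij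
          exact hne hij.symm
      · intro i j
        rw [pathGraph_adj]
        change G.Adj (if i.val = 0 then u else v) (if j.val = 0 then u else v) ↔ _
        have hi := i.2
        have hj := j.2
        split_ifs with h1 h2 h2
        · simp only [G.loopless.irrefl, false_iff]; omega
        · simp only [huv, true_iff]; omega
        · simp only [huv.symm, true_iff]; omega
        · simp only [G.loopless.irrefl, false_iff]; omega
    have h1 : treedepth G ≤ 1 := by
      refine Nat.sInf_le ⟨⟨fun a b => a = b, fun _ => rfl, fun _ _ _ => Eq.trans,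
        fun _ _ h _ => h, fun a b v h h' => Or.inl (h.trans h'.symm)⟩,
        fun u v huv => absurd huv (hno u v), fun v => ?_⟩
      have : {a | a = v} = ({v} : Set V) := by ext; simp
      change {a | a = v}.ncard ≤ 1
      rw [this, Set.ncard_singleton]
    refine h1.trans ?_
    norm_num
  · have hP' : ¬ Nonempty (pathGraph (s + 3) ↪g G) := by
      have : 2 + (s + 1) = s + 3 := by omega
      rwa [this] at hP
    have h1 := treedepth_le_of_brBound (brBound_of_treewidth htw) hP'
    have h2 := Phi_le (k + 1) s
    have h3 : (2 + (s + 1) - 1) / 2 = s / 2 + 1 := by omega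
    rw [h3]
    have h4 : k + 1 + 1 = k + 2 := rfl
    rw [h4] at h2
    omega

theorem bdd (k t : ℕ) (ht : 2 ≤ t) : ∀ d ∈ values k t, d ≤ 2 * (k + 2) ^ ((t - 1) / 2) := by
  rintro d ⟨V, hV, G, htw, hP, rfl⟩
  exact upper G k t ht htw hP

theorem lower (k t : ℕ) (ht : 2 ≤ t) :
    ∃ d ∈ values k t, (k + (t - 1) / 2).choose ((t - 1) / 2) ≤ d := by
  -- a good graph for an odd number, at most `t`
  have key : ∀ n D, n ≤ t → Good k n D → ∃ d ∈ values k t, D ≤ d := by
    rintro n D hn ⟨V, hV, G, F, hF, hb, hP, hD⟩
    refine ⟨treedepth G, ⟨V, hV, G, treewidth_le_of_forest F G hF k hb, ?_, rfl⟩, hD⟩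
    rintro ⟨φ⟩
    apply hP
    refine ⟨⟨⟨fun i => φ ⟨i, by omega⟩, ?_⟩, ?_⟩⟩
    · intro i j hij
      have := φ.injective hij
      simp only [Fin.mk.injEq] at this
      exact Fin.ext this
    · intro i j
      change G.Adj (φ ⟨i, _⟩) (φ ⟨j, _⟩) ↔ _
      rw [φ.map_adj_iff, pathGraph_adj, pathGraph_adj]
  rcases Nat.lt_or_ge t 3 with h | h
  · obtain rfl : t = 2 := by omega
    obtain ⟨d, hd, h1⟩ := key 2 1 le_rfl (good_single k 2 le_rfl)
    exact ⟨d, hd, by simpa using h1⟩
  · obtain ⟨e, he⟩ : ∃ e, (t - 1) / 2 = e + 1 := ⟨(t - 1) / 2 - 1, by omega⟩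
    rw [he]
    exact key _ _ (by omega) (good_binom e k)

/-- **The treedepth of `P_t`-free graphs of treewidth at most `k`.** For all `t ≥ 2` and `k`, the
treedepths of the finite graphs of treewidth at most `k` without an induced path on `t` vertices form
a nonempty bounded set, its maximum `h(k, t)` satisfies
`C(k + e, e) ≤ h(k, t) ≤ 2 (k + 2) ^ e` with `e = ⌊(t - 1) / 2⌋`, and so `h(k, t) = Θ(k ^ e)` as
`k → ∞` for every fixed `t`. -/
theorem result (t : ℕ) (ht : 2 ≤ t) :
    (∀ k, (values k t).Nonempty ∧ BddAbove (values k t)) ∧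
    (∀ k, (k + (t - 1) / 2).choose ((t - 1) / 2) ≤ h k t ∧ h k t ≤ 2 * (k + 2) ^ ((t - 1) / 2)) ∧
    (fun k : ℕ => (h k t : ℝ)) =Θ[atTop] (fun k : ℕ => (k : ℝ) ^ ((t - 1) / 2)) := by
  have h1 : ∀ k, (values k t).Nonempty ∧ BddAbove (values k t) := by
    intro k
    obtain ⟨d, hd, -⟩ := lower k t ht
    exact ⟨⟨d, hd⟩, ⟨_, bdd k t ht⟩⟩
  have h2 : ∀ k, (k + (t - 1) / 2).choose ((t - 1) / 2) ≤ h k t ∧
      h k t ≤ 2 * (k + 2) ^ ((t - 1) / 2) := by
    intro k
    constructor
    · obtain ⟨d, hd, hd'⟩ := lower k t ht
      exact hd'.trans (le_csSup (h1 k).2 hd)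
    · exact csSup_le (h1 k).1 (bdd k t ht)
  refine ⟨h1, h2, ?_⟩
  set e := (t - 1) / 2 with he
  constructor
  · refine IsBigO.of_bound (2 * 3 ^ e) ?_
    filter_upwards [eventually_ge_atTop 1] with k hk
    rw [Real.norm_of_nonneg (by positivity), Real.norm_of_nonneg (by positivity)]
    have h3 : ((h k t : ℕ) : ℝ) ≤ 2 * ((k : ℝ) + 2) ^ e := by exact_mod_cast (h2 k).2
    have h4 : (k : ℝ) + 2 ≤ 3 * k := by
      have : (1 : ℝ) ≤ k := by exact_mod_cast hk
      linarith
    calc ((h k t : ℕ) : ℝ) ≤ 2 * ((k : ℝ) + 2) ^ e := h3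
      _ ≤ 2 * (3 * (k : ℝ)) ^ e := by gcongr
      _ = 2 * 3 ^ e * (k : ℝ) ^ e := by rw [mul_pow]; ring
  · refine IsBigO.of_bound (e.factorial : ℝ) ?_
    filter_upwards with k
    rw [Real.norm_of_nonneg (by positivity), Real.norm_of_nonneg (by positivity)]
    have h3 : (k + 1) ^ e ≤ e.factorial * (k + e).choose e := by
      rw [← Nat.ascFactorial_eq_factorial_mul_choose]
      exact Nat.pow_succ_le_ascFactorial _ _
    have h4 : k ^ e ≤ e.factorial * h k t :=
      (Nat.pow_le_pow_left (Nat.le_succ k) e).trans
        (h3.trans (Nat.mul_le_mul_left _ (h2 k).1))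
    exact_mod_cast h4

end Pool.Agent.Results.MP_04d34b_co.InducedPathTreedepth
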